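import Pool.Agent.H75.GG.Targets
import Pool.Agent.H70.OQ.Targets

set_option autoImplicit false

namespace Pool.Agent.H68.GG

open Finset Filter Pool.Agent.H6.NB Pool.Agent.H70.OQ Pool.Agent.H75.GS Pool.Agent.H75.GG

theorem pf_ORC (hBLG : Pool.Agent.H70.OQ.T_BLG) (hBUG : Pool.Agent.H70.OQ.T_BUG) :
    Pool.Agent.H75.GG.T_ORC := by
  intro A hA σ
  have h : ∃ O, Bldg A σ O := hBLG A hA σ
  have h1 : Bldg A σ (Pool.Agent.H75.GG.orc A σ) := by
    unfold Pool.Agent.H75.GG.orc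
    rw [dif_pos h]
    exact h.choose_spec
  refine ⟨h1, fun O hO => ?_⟩
  funext w
  exact hBUG A σ σ O _ w.length hA hO h1 (fun _ _ => rfl) w le_rfl

end Pool.Agent.H68.GG
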