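import Pool.Agent.H75.GG.Targets2

set_option autoImplicit false

namespace Pool.Agent.H68.GG

open Finset Filter Pool.Agent.H6.NB Pool.Agent.H70.OQ Pool.Agent.H75.GS Pool.Agent.H75.GG

theorem sum_pow16 (m : ℕ) (hm : 16 ≤ m) : 4 * (4 * m + 3) * (4 * m + 4) ≤ 2 ^ m := by
  induction m, hm using Nat.le_induction with
  | base => norm_num
  | succ m hm ih =>
    have h1 : 2 ^ (m + 1) = 2 * 2 ^ m := by rw [pow_succ]; ring
    rw [h1]
    nlinarith

theorem sum_pow4 (n : ℕ) (hn : 64 ≤ n) : 4 * (n * (n + 1)) ≤ 2 ^ (n / 4) := by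
  have h1 := sum_pow16 (n / 4) (by omega)
  have h2 : n ≤ 4 * (n / 4) + 3 := by omega
  refine le_trans ?_ h1
  calc 4 * (n * (n + 1)) ≤ 4 * ((4 * (n / 4) + 3) * (4 * (n / 4) + 4)) := by
        apply Nat.mul_le_mul_left
        exact Nat.mul_le_mul h2 (by omega)
    _ = _ := by ring

/-- the strings of length `n` -/
theorem sum_card_strings (D : Finset (List Bool)) (n : ℕ) :
    ((D.filter fun s => s.length = n).card : ℝ) ≤ 2 ^ n := by
  classical
  have h1 : (D.filter fun s => s.length = n) ⊆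
      (Finset.univ : Finset (Fin n → Bool)).image List.ofFn := by
    intro s hs
    obtain ⟨_, hs2⟩ := Finset.mem_filter.1 hs
    subst hs2
    exact Finset.mem_image.2 ⟨s.get, Finset.mem_univ _, List.ofFn_get s⟩
  have h2 := (Finset.card_le_card h1).trans Finset.card_image_le
  rw [Finset.card_univ, Fintype.card_fun, Fintype.card_fin, Fintype.card_bool] at h2
  exact_mod_cast h2

theorem pf_SUM : T_SUM := by
  classical
  intro G hn0 hr F
  -- the bound for the length `n`
  let g : ℕ → ℝ := fun n => 33 / (max n 64 : ℕ)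
  have hkey : ∀ n : ℕ, (if G.n0 ≤ n then (1 : ℝ) / 2 ^ n else 0) +
      (G.r n : ℝ) * (if G.n0 ≤ n then (G.r n : ℝ) * 2 ^ (n / 2 + 7) / 2 ^ n else 0) +
      2 ^ n * (if G.n0 ≤ n then (1 / 4 : ℝ) ^ n else 0) ≤ g n - g (n + 1) := by
    intro n
    by_cases hn : G.n0 ≤ n
    · simp only [hn, if_true]
      have h64 : 64 ≤ n := hn0.trans hn
      have hg : g n - g (n + 1) = 33 / ((n : ℝ) * (n + 1)) := by
        change (33 : ℝ) / (max n 64 : ℕ) - 33 / (max (n + 1) 64 : ℕ) = _
        rw [max_eq_left h64, max_eq_left (by omega : 64 ≤ n + 1)]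
        have h1 : (n : ℝ) ≠ 0 := by
          have : n ≠ 0 := by omega
          exact_mod_cast this
        have h2 : ((n : ℝ) + 1) ≠ 0 := by positivity
        push_cast
        field_simp
        ring
      rw [hg]
      have hp : (4 : ℝ) * (n * (n + 1)) ≤ 2 ^ (n / 4) := by exact_mod_cast sum_pow4 n h64
      have hnpos : (0 : ℝ) < n * (n + 1) := by
        have : (0 : ℝ) < n := by
          have : 0 < n := by omega
          exact_mod_cast this
        positivity
      have hp2 : (2 : ℝ) ^ (n / 4) ≤ 2 ^ n := pow_le_pow_right₀ (by norm_num) (Nat.div_le_self _ _)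
      have h1 : (1 : ℝ) / 2 ^ n ≤ 1 / (4 * (n * (n + 1))) :=
        one_div_le_one_div_of_le (by positivity) (hp.trans hp2)
      have h2 : (2 : ℝ) ^ n * (1 / 4) ^ n = 1 / 2 ^ n := by
        rw [← mul_pow, show (2 : ℝ) * (1 / 4) = 1 / 2 by norm_num, one_div_pow]
      have h3 : (G.r n : ℝ) * ((G.r n : ℝ) * 2 ^ (n / 2 + 7) / 2 ^ n) ≤ 2 ^ 7 / 2 ^ (n / 4) := by
        have h4 : (G.r n : ℝ) ≤ 2 ^ (n / 16) := by exact_mod_cast hr n hn
        have h5 : (G.r n : ℝ) * ((G.r n : ℝ) * 2 ^ (n / 2 + 7) / 2 ^ n) ≤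
            2 ^ (n / 16) * (2 ^ (n / 16) * 2 ^ (n / 2 + 7) / 2 ^ n) := by
          have h0 : (0 : ℝ) ≤ G.r n := Nat.cast_nonneg _
          gcongr
        refine h5.trans ?_
        rw [← mul_div_assoc, div_le_div_iff₀ (by positivity) (by positivity)]
        rw [← pow_add, ← pow_add, ← pow_add, ← pow_add]
        exact pow_le_pow_right₀ (by norm_num) (by omega)
      have h6 : (2 : ℝ) ^ 7 / 2 ^ (n / 4) ≤ 32 / (n * (n + 1)) := by
        rw [div_le_div_iff₀ (by positivity) hnpos]
        linarith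
      have h7 : (1 : ℝ) / (4 * (n * (n + 1))) = (1 / 4) / (n * (n + 1)) := by
        field_simp
      rw [h2]
      rw [h7] at h1
      have h8 : (33 : ℝ) / (n * (n + 1)) = 1 / (n * (n + 1)) + 32 / (n * (n + 1)) := by
        rw [← add_div]; norm_num
      have h9 : (1 / 4 : ℝ) / (n * (n + 1)) ≤ (1 / 2) / (n * (n + 1)) :=
        div_le_div_of_nonneg_right (by norm_num) hnpos.le
      have h10 : (1 / 2 : ℝ) / (n * (n + 1)) + (1 / 2) / (n * (n + 1)) = 1 / (n * (n + 1)) := by
        rw [← add_div]; norm_num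
      linarith
    · simp only [hn, if_false]
      have h1 : g (n + 1) ≤ g n := by
        change (33 : ℝ) / (max (n + 1) 64 : ℕ) ≤ 33 / (max n 64 : ℕ)
        apply div_le_div_of_nonneg_left (by norm_num)
        · have : 0 < max n 64 := by omega
          exact_mod_cast this
        · have : max n 64 ≤ max (n + 1) 64 := by omega
          exact_mod_cast this
      simp only [mul_zero, add_zero]
      linarith
  -- decomposition
  let A : Finset ℕ := F.toLeft
  let B : Finset (Σ n : ℕ, Fin (G.r n)) := F.toRight.toLeft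
  let D : Finset (List Bool) := F.toRight.toRight
  have hF : ∑ e ∈ F, dlt G e = ∑ n ∈ A, dlt G (.inl n) + (∑ c ∈ B, dlt G (.inr (.inl c)) +
      ∑ s ∈ D, dlt G (.inr (.inr s))) := by
    conv_lhs => rw [← Finset.toLeft_disjSum_toRight (u := F), Finset.sum_disjSum]
    congr 1
    conv_lhs => rw [← Finset.toLeft_disjSum_toRight (u := F.toRight), Finset.sum_disjSum]
  obtain ⟨N, hN⟩ : ∃ N : ℕ, (∀ n ∈ A, n < N) ∧ (∀ c ∈ B, c.1 < N) ∧ ∀ s ∈ D, s.length < N := by
    refine ⟨A.sup id + B.sup (fun c => c.1) + D.sup (fun s => s.length) + 1, ?_, ?_, ?_⟩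
    · intro n hn
      have h := Finset.le_sup (f := (id : ℕ → ℕ)) hn
      simp only [id] at h
      omega
    · intro c hc
      have h := Finset.le_sup (f := fun c : (Σ n : ℕ, Fin (G.r n)) => c.1) hc
      omega
    · intro s hs
      have h := Finset.le_sup (f := fun s : List Bool => s.length) hs
      omega
  obtain ⟨hNA, hNB, hND⟩ := hN
  have hA : ∑ n ∈ A, dlt G (.inl n) ≤
      ∑ n ∈ range N, (if G.n0 ≤ n then (1 : ℝ) / 2 ^ n else 0) := by
    refine Finset.sum_le_sum_of_subset_of_nonneg (fun n hn => Finset.mem_range.2 (hNA n hn)) ?_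
    intro n _ _
    change (0 : ℝ) ≤ if G.n0 ≤ n then (1 : ℝ) / 2 ^ n else 0
    split_ifs <;> positivity
  have hB : ∑ c ∈ B, dlt G (.inr (.inl c)) ≤ ∑ n ∈ range N, (G.r n : ℝ) *
      (if G.n0 ≤ n then (G.r n : ℝ) * 2 ^ (n / 2 + 7) / 2 ^ n else 0) := by
    have h1 : ∑ c ∈ B, dlt G (.inr (.inl c)) ≤
        ∑ c ∈ (range N).sigma (fun n => (Finset.univ : Finset (Fin (G.r n)))),
          dlt G (.inr (.inl c)) := by
      refine Finset.sum_le_sum_of_subset_of_nonneg (fun c hc => ?_) ?_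
      · exact Finset.mem_sigma.2 ⟨Finset.mem_range.2 (hNB c hc), Finset.mem_univ _⟩
      · intro c _ _
        change (0 : ℝ) ≤ if _ then _ else _
        split_ifs <;> positivity
    refine h1.trans (le_of_eq ?_)
    rw [Finset.sum_sigma]
    refine Finset.sum_congr rfl fun n _ => ?_
    change ∑ _k : Fin (G.r n), (if G.n0 ≤ n then (G.r n : ℝ) * 2 ^ (n / 2 + 7) / 2 ^ n else 0) = _
    rw [Finset.sum_const, Finset.card_univ, Fintype.card_fin, nsmul_eq_mul]
  have hD : ∑ s ∈ D, dlt G (.inr (.inr s)) ≤ ∑ n ∈ range N, (2 : ℝ) ^ n *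
      (if G.n0 ≤ n then (1 / 4 : ℝ) ^ n else 0) := by
    rw [← Finset.sum_fiberwise_of_maps_to (g := fun s : List Bool => s.length)
      (t := range N) (fun s hs => Finset.mem_range.2 (hND s hs))]
    refine Finset.sum_le_sum fun n _ => ?_
    have h1 : ∑ s ∈ D.filter (fun s => s.length = n), dlt G (.inr (.inr s)) =
        ((D.filter fun s => s.length = n).card : ℝ) *
          (if G.n0 ≤ n then (1 / 4 : ℝ) ^ n else 0) := by
      rw [← nsmul_eq_mul, ← Finset.sum_const]
      refine Finset.sum_congr rfl fun s hs => ?_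
      have h2 := (Finset.mem_filter.1 hs).2
      change (if G.n0 ≤ s.length then (1 / 4 : ℝ) ^ s.length else 0) = _
      rw [h2]
    rw [h1]
    refine mul_le_mul_of_nonneg_right (sum_card_strings D n) ?_
    split_ifs <;> positivity
  have htot : ∑ n ∈ range N, ((if G.n0 ≤ n then (1 : ℝ) / 2 ^ n else 0) +
      (G.r n : ℝ) * (if G.n0 ≤ n then (G.r n : ℝ) * 2 ^ (n / 2 + 7) / 2 ^ n else 0) +
      2 ^ n * (if G.n0 ≤ n then (1 / 4 : ℝ) ^ n else 0)) ≤ g 0 - g N := by
    rw [← Finset.sum_range_sub' g N]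
    exact Finset.sum_le_sum fun n _ => hkey n
  rw [Finset.sum_add_distrib, Finset.sum_add_distrib] at htot
  have hg0 : g 0 = 33 / 64 := by
    change (33 : ℝ) / (max 0 64 : ℕ) = _
    norm_num
  have hgN : 0 ≤ g N := by
    change 0 ≤ (33 : ℝ) / (max N 64 : ℕ)
    positivity
  rw [hF]
  linarith

end Pool.Agent.H68.GG
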